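import Mathlib
import Pool.Agent.N381.UQ.Make
import Pool.Agent.N381.UQ.Asm
import Pool.Agent.N381.UQ.Asym

/-!
K9h1/LB (helper1, MP_0430e4_lc): the field with two elements.  The ball has a second group of large
Fourier coefficients, near the all ones word; the set of frequencies is taken symmetric.
-/

set_option autoImplicit false
set_option linter.unusedSectionVars false

namespace Pool.Agent.K9h1.LB

open Finset Matrix Polynomial Pool.Agent.N381.UQ

variable {F : Type} [Field F] [Fintype F] [DecidableEq F]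

variable {n d j₀ j₁ : ℕ}

lemma dom_sq : Dom (1 - X ^ 2) (1 + X ^ 2) := by
  intro w
  rw [coeff_sub, coeff_add, coeff_one, coeff_one, coeff_X_pow, coeff_X_pow]
  by_cases h1 : w = 0
  · subst h1
    simp
  · by_cases h2 : w = 2
    · subst h2
      simp
    · rw [if_neg h1, if_neg h1, if_neg h2, if_neg h2]
      simp

lemma dom_one_plus : Dom (1 + X) (1 + X) := by
  intro w
  rw [coeff_add, coeff_add, coeff_one, coeff_one, coeff_X, coeff_X]
  by_cases h1 : w = 0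
  · subst h1
    simp
  · by_cases h2 : 1 = w
    · subst h2
      simp
    · rw [if_neg h1, if_neg h1, if_neg h2, if_neg h2]
      simp

lemma wp_dom (h : q1 F = 1) (y : Fin n → F) :
    Dom (wp y) ((1 + X ^ 2) ^ (min (hammingNorm y) (n - hammingNorm y)) *
      (1 + X) ^ (n - 2 * (min (hammingNorm y) (n - hammingNorm y)))) := by
  have hk := wt_le y
  rw [wp_eq, h]
  have e0 : (1 + C ((1 : ℝ) : ℂ) * X : ℂ[X]) = 1 + X := by simp
  rw [e0]
  obtain ⟨k, hk'⟩ : ∃ k, k = hammingNorm y := ⟨_, rfl⟩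
  rw [← hk'] at hk ⊢
  rcases le_total k (n - k) with h1 | h1
  · rw [min_eq_left h1]
    have e1 : (1 - X : ℂ[X]) ^ k * (1 + X) ^ (n - k) = (1 - X ^ 2) ^ k * (1 + X) ^ (n - 2 * k) := by
      have e2 : n - k = k + (n - 2 * k) := by omega
      rw [e2, pow_add, ← mul_assoc, ← mul_pow]
      congr 2
      ring
    rw [e1]
    exact (dom_sq.pow _).mul (dom_one_plus.pow _)
  · rw [min_eq_right h1]
    have e1 : (1 - X : ℂ[X]) ^ k * (1 + X) ^ (n - k) =
        (1 - X ^ 2) ^ (n - k) * (1 - X) ^ (n - 2 * (n - k)) := by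
      have e2 : k = (n - k) + (n - 2 * (n - k)) := by omega
      have e3 : (1 - X : ℂ[X]) ^ k = (1 - X) ^ (n - k) * (1 - X) ^ (n - 2 * (n - k)) := by
        rw [← pow_add, ← e2]
      rw [e3]
      have e4 : (1 - X : ℂ[X]) ^ (n - k) * (1 - X) ^ (n - 2 * (n - k)) * (1 + X) ^ (n - k) =
          ((1 - X) * (1 + X)) ^ (n - k) * (1 - X) ^ (n - 2 * (n - k)) := by
        rw [mul_pow]
        ring
      rw [e4]
      congr 2
      ring
    rw [e1]
    exact (dom_sq.pow _).mul (dom_minus.pow _)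

lemma ball_le2 (h : q1 F = 1) {r : ℝ} (hr : 0 < r) (hr1 : r ≤ 1) (d : ℕ) (y : Fin n → F) :
    ‖∑ x ∈ Bd F n d, sg (x ⬝ᵥ y)‖ ≤
      VV 1 n d r * ((1 + r ^ 2) / (1 + r) ^ 2) ^ (min (hammingNorm y) (n - hammingNorm y)) := by
  obtain ⟨m, hm⟩ : ∃ m, m = min (hammingNorm y) (n - hammingNorm y) := ⟨_, rfl⟩
  have hdom := wp_dom h y
  rw [← hm] at hdom ⊢
  have hk := wt_le y
  have h2m : 2 * m ≤ n := by
    have h1 := min_le_left (hammingNorm y) (n - hammingNorm y)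
    have h2 := min_le_right (hammingNorm y) (n - hammingNorm y)
    omega
  obtain ⟨qq, hqq⟩ : ∃ qq : ℝ[X], qq = (1 + X ^ 2) ^ m * (1 + X) ^ (n - 2 * m) := ⟨_, rfl⟩
  rw [← hqq] at hdom
  have hnn : ∀ w, 0 ≤ qq.coeff w := fun w => (norm_nonneg _).trans (hdom w)
  have h3 : ‖∑ x ∈ Bd F n d, sg (x ⬝ᵥ y)‖ ≤ ∑ w ∈ range d, qq.coeff w := by
    rw [N381.UQ.ball_eq]
    exact (norm_sum_le _ _).trans (Finset.sum_le_sum fun w _ => hdom w)
  have h4 : (∑ w ∈ range d, qq.coeff w) * r ^ d ≤ qq.eval r := by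
    rw [eval_eq_sum_range' (lt_of_lt_of_le (Nat.lt_succ_self _) (le_max_left _ d) :
      qq.natDegree < max (qq.natDegree + 1) d), Finset.sum_mul]
    refine (Finset.sum_le_sum fun w hw => ?_).trans (Finset.sum_le_sum_of_subset_of_nonneg
      (s := range d) (f := fun w => qq.coeff w * r ^ w) ?_ fun w _ _ => ?_)
    · refine mul_le_mul_of_nonneg_left ?_ (hnn w)
      exact pow_le_pow_of_le_one hr.le hr1 (Finset.mem_range.1 hw).le
    · intro w hw
      exact Finset.mem_range.2 (lt_of_lt_of_le (Finset.mem_range.1 hw) (le_max_right _ _))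
    · exact mul_nonneg (hnn w) (by positivity)
  have h5 : qq.eval r = (1 + r ^ 2) ^ m * (1 + r) ^ (n - 2 * m) := by
    rw [hqq]
    simp
  have h6 : VV 1 n d r * ((1 + r ^ 2) / (1 + r) ^ 2) ^ m =
      (1 + r ^ 2) ^ m * (1 + r) ^ (n - 2 * m) / r ^ d := by
    unfold VV
    rw [div_pow, ← pow_mul, one_mul]
    have : (1 + r) ^ n = (1 + r) ^ (n - 2 * m) * (1 + r) ^ (2 * m) := by
      rw [← pow_add, Nat.sub_add_cancel h2m]
    rw [this]
    have : (0 : ℝ) < 1 + r := by positivity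
    field_simp
  rw [h6, ← h5, le_div_iff₀ (by positivity)]
  exact (mul_le_mul_of_nonneg_right h3 (by positivity)).trans h4

/-- the ball around the words without zero coordinate -/
def Bo (F : Type) [Field F] [Fintype F] [DecidableEq F] (n j : ℕ) : Finset (Fin n → F) :=
  univ.filter fun x => n - hammingNorm x < j

/-- the symmetric set of frequencies -/
def Lo2 (F : Type) [Field F] [Fintype F] [DecidableEq F] (n j : ℕ) : Finset (Fin n → F) :=
  Bd F n j ∪ Bo F n j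

lemma mem_Lo2 {j : ℕ} {x : Fin n → F} :
    x ∈ Lo2 F n j ↔ min (hammingNorm x) (n - hammingNorm x) < j := by
  unfold Lo2 Bo
  rw [Finset.mem_union, mem_Bd, Finset.mem_filter, min_lt_iff]
  simp

lemma Lo2_smul {j : ℕ} (t : F) (ht : t ≠ 0) (x : Fin n → F) (hx : x ∈ Lo2 F n j) :
    t • x ∈ Lo2 F n j := by
  rw [mem_Lo2, norm_smul' ht]
  exact mem_Lo2.1 hx

lemma gen_opp (r : ℝ) : ∑ x : Fin n → F, r ^ (n - hammingNorm x) = (r + q1 F) ^ n := by
  have h0 : ∀ x : Fin n → F, r ^ (n - hammingNorm x) = ∏ i, (if x i ≠ 0 then (1 : ℝ) else r) := by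
    intro x
    rw [prod_split, one_pow, one_mul]
  simp_rw [h0]
  rw [sum_prod_cube fun _ a => if a ≠ 0 then (1 : ℝ) else r]
  rw [Finset.prod_congr rfl fun i _ => sum_if (1 : ℝ) r, Finset.prod_const, Finset.card_univ,
    Fintype.card_fin]
  unfold q1
  ring

lemma card_Bo_le (h : q1 F = 1) {r : ℝ} (hr : 0 < r) (hr1 : r ≤ 1) (j : ℕ) :
    ((Bo F n j).card : ℝ) ≤ VV 1 n j r := by
  unfold VV
  have e : (1 + 1 * r) ^ n = ∑ x : Fin n → F, r ^ (n - hammingNorm x) := by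
    rw [gen_opp, h]
    ring
  rw [le_div_iff₀ (by positivity), e, ← nsmul_eq_mul, ← Finset.sum_const]
  refine (Finset.sum_le_sum fun x hx => ?_).trans
    (Finset.sum_le_sum_of_subset_of_nonneg (Finset.subset_univ _) fun x _ _ => by positivity)
  exact pow_le_pow_of_le_one hr.le hr1 (Finset.mem_filter.1 hx).2.le

lemma card_Lo2_le (h : q1 F = 1) {r : ℝ} (hr : 0 < r) (hr1 : r ≤ 1) (j : ℕ) :
    ((Lo2 F n j).card : ℝ) ≤ 2 * VV 1 n j r := by
  have h1 := card_Bd_le (F := F) (n := n) hr hr1 j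
  rw [h] at h1
  have h2 := card_Bo_le (n := n) h hr hr1 j
  have h3 : ((Lo2 F n j).card : ℝ) ≤ ((Bd F n j).card : ℝ) + ((Bo F n j).card : ℝ) := by
    exact_mod_cast Finset.card_union_le _ _
  linarith

/-- **The data for balls, two elements.** -/
lemma mkDat2 (hF : q1 F = 1) {q y z Z v V1 : ℝ} (hq : 0 < q) (hq1 : q ≤ 1) (hy : 0 < y)
    (hy1 : y ≤ 1) (hz : 0 < z)
    (hz1 : z ≤ 1) (hV : V1 = VV 1 n d (q ^ 2)) (hj : 1 ≤ j₁) (hjd : j₁ ≤ d) (hv0 : 0 < v)
    (hv1 : v ≤ 1) (hZ : 2 * VV 1 n j₀ y ≤ Z) (hvZ : 1 ≤ v * Z)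
    (hPZ : V1 / (Fintype.card F : ℝ) ^ n * Z ^ 40 ≤ 1)
    (hfh : ((1 + (q ^ 2) ^ 2) / (1 + q ^ 2) ^ 2) ^ j₀ +
      2 * VV 1 n j₀ y * (V1 / (Fintype.card F : ℝ) ^ n) ≤ v ^ 3)
    (hcT : VV 1 n j₁ z * Z ^ 40 ≤ V1)
    (hsh : (2 * q / (1 + q ^ 2)) ^ j₁ ≤ v) :
    Dat n (V1 / (Fintype.card F : ℝ) ^ n) Z v (ff (Bd F n d) (Lo2 F n j₀)) (Bd F n d)
      (Bd F n j₁) (Lo2 F n j₀) := by
  classical
  have hFc := card_F_pos (F := F)
  have hr : 0 < q ^ 2 := by positivity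
  have hr1 : q ^ 2 ≤ 1 := pow_le_one₀ hq.le hq1
  have hV1 : 1 ≤ V1 := hV ▸ one_le_VV one_pos hr hr1 d
  have hV0 : 0 < V1 := by linarith
  have hd : 1 ≤ d := hj.trans hjd
  obtain ⟨P1, hP1⟩ : ∃ P1, P1 = 2 * VV 1 n j₀ y := ⟨_, rfl⟩
  have hP11 : 1 ≤ P1 := by
    have := one_le_VV (n := n) one_pos hy hy1 j₀
    rw [hP1]
    linarith
  rw [← hP1] at hZ hfh
  have hZ1 : 1 ≤ Z := by linarith
  have hZ0 : 0 < Z := by linarith
  have hn0 : (0 : ℝ) < (Fintype.card F : ℝ) ^ n := by positivity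
  obtain ⟨P, hP⟩ : ∃ P, P = V1 / (Fintype.card F : ℝ) ^ n := ⟨_, rfl⟩
  rw [← hP] at hPZ hfh ⊢
  have hP0 : 0 < P := by rw [hP]; positivity
  have hPV : P * (Fintype.card F : ℝ) ^ n = V1 := by rw [hP]; field_simp
  have hB : av (ind (Bd F n d)) ≤ P := by
    rw [hP, hV, ← hF]
    exact av_ind_Bd d hr hr1
  have hLo : ((Lo2 F n j₀).card : ℝ) ≤ P1 := hP1 ▸ card_Lo2_le hF hy hy1 j₀
  have hη : ∀ x : Fin n → F, x ∉ Bd F n d → |ff (Bd F n d) (Lo2 F n j₀) x| ≤ P * Z := by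
    intro x hx
    refine (ff_out hB hx).trans ?_
    rw [mul_comm]
    exact mul_le_mul_of_nonneg_left (hLo.trans hZ) hP0.le
  have hPZ1 : P * Z ≤ 1 := by
    refine le_trans ?_ hPZ
    exact mul_le_mul_of_nonneg_left (le_self_pow₀ hZ1 (by norm_num)) hP0.le
  obtain ⟨ρj, hρj⟩ : ∃ ρj, ρj = ((1 + (q ^ 2) ^ 2) / (1 + q ^ 2) ^ 2) ^ j₀ := ⟨_, rfl⟩
  have hρ0 : 0 ≤ ρj := by rw [hρj]; positivity
  rw [← hρj] at hfh
  have hbh : ∀ c : Fin n → F, c ∉ Lo2 F n j₀ → ‖hatr (ind (Bd F n d)) c‖ ≤ P * ρj := by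
    intro c hc
    have h1 : hatr (ind (Bd F n d)) c =
        (∑ x ∈ Bd F n d, sg (x ⬝ᵥ c)) / ((Fintype.card F : ℂ) ^ n) := by
      unfold hatr hatv av
      congr 1
      · have h2 : ∀ x : Fin n → F, (ind (Bd F n d) x : ℂ) * sg (x ⬝ᵥ c) =
            if x ∈ Bd F n d then sg (x ⬝ᵥ c) else 0 := by
          intro x
          unfold ind
          split_ifs <;> simp
        rw [Finset.sum_congr rfl fun x _ => h2 x, Finset.sum_ite_mem, Finset.univ_inter]
      · rw [Fintype.card_fun, Fintype.card_fin]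
        push_cast
        rfl
    rw [h1, norm_div, norm_pow, RCLike.norm_natCast, div_le_iff₀ hn0]
    refine (ball_le2 hF hr hr1 d c).trans ?_
    have h3 : j₀ ≤ min (hammingNorm c) (n - hammingNorm c) := by
      by_contra h
      exact hc (mem_Lo2.2 (by omega))
    have h4 : (1 + (q ^ 2) ^ 2) / (1 + q ^ 2) ^ 2 ≤ 1 := by
      rw [div_le_one (by positivity)]
      nlinarith
    calc VV 1 n d (q ^ 2) * ((1 + (q ^ 2) ^ 2) / (1 + q ^ 2) ^ 2) ^
          (min (hammingNorm c) (n - hammingNorm c)) ≤ V1 * ρj := by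
          rw [← hV, hρj]
          exact mul_le_mul_of_nonneg_left (pow_le_pow_of_le_one (by positivity) h4 h3) hV0.le
      _ = P * ρj * (Fintype.card F : ℝ) ^ n := by rw [← hPV]; ring
  refine ⟨hP0, hv0, hv1, hZ1, hvZ, hPZ, ?_, ?_, fun x hx => ff_in hx, ?_, hη, ?_, hB, ?_, ?_,
    hLo.trans hZ, ?_, Bd_smul, Bd_smul, fun t ht x => ff_smul Bd_smul Lo2_smul ht x⟩
  · rw [mem_Bd, hammingNorm_zero]
    omega
  · intro x hx
    exact mem_Bd.2 (lt_of_lt_of_le (mem_Bd.1 hx) hjd)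
  · intro x
    by_cases hx : x ∈ Bd F n d
    · rw [ff_in hx, abs_one]
    · exact (hη x hx).trans hPZ1
  · intro c
    refine (ff_hat hB Bd_smul Lo2_smul (a := P * ρj) (by positivity) hbh c).trans ?_
    calc P * ρj + (Lo2 F n j₀).card * P * P ≤ P * ρj + P1 * P * P := by gcongr
      _ = P * (ρj + P1 * P) := by ring
      _ ≤ P * v ^ 3 := mul_le_mul_of_nonneg_left hfh hP0.le
  · refine (av_ind_Bd j₁ hz hz1).trans ?_
    rw [hP, div_div, div_le_div_iff₀ (by positivity) (by positivity), hF]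
    calc VV 1 n j₁ z * ((Fintype.card F : ℝ) ^ n * Z ^ 40) =
        VV 1 n j₁ z * Z ^ 40 * (Fintype.card F : ℝ) ^ n := by ring
      _ ≤ V1 * (Fintype.card F : ℝ) ^ n := mul_le_mul_of_nonneg_right hcT hn0.le
  · intro w hw
    have h1 : j₁ ≤ hammingNorm w := by
      by_contra h
      exact hw (mem_Bd.2 (by omega))
    have h2 : (av fun x => ind (Bd F n d) x * ind (Bd F n d) (x + w)) =
        ((univ.filter fun x : Fin n → F => x ∈ Bd F n d ∧ x + w ∈ Bd F n d).card : ℝ) /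
          (Fintype.card F : ℝ) ^ n := by
      unfold av
      rw [card_cube, ← Finset.sum_boole]
      congr 1
      refine Finset.sum_congr rfl fun x _ => ?_
      show (if x ∈ Bd F n d then (1 : ℝ) else 0) * (if x + w ∈ Bd F n d then (1 : ℝ) else 0) = _
      by_cases a1 : x ∈ Bd F n d
      · by_cases a2 : x + w ∈ Bd F n d
        · rw [if_pos a1, if_pos a2, if_pos ⟨a1, a2⟩, mul_one]
        · rw [if_neg a2, mul_zero,
            if_neg (show ¬ (x ∈ Bd F n d ∧ x + w ∈ Bd F n d) from fun h => a2 h.2)]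
      · rw [if_neg a1, zero_mul,
          if_neg (show ¬ (x ∈ Bd F n d ∧ x + w ∈ Bd F n d) from fun h => a1 h.1)]
    rw [h2, div_le_iff₀ hn0]
    have hθ1 : 2 * q / (1 + q ^ 2) ≤ 1 := by
      rw [div_le_one (by positivity)]
      nlinarith [sq_nonneg (1 - q)]
    have h5 := inter_le (F := F) hq hq1 d w
    have e5 : 2 * q + (q1 F - 1) * q ^ 2 = 2 * q := by rw [hF]; ring
    have e6 : 1 + q1 F * q ^ 2 = 1 + q ^ 2 := by rw [hF]; ring
    rw [e5, e6, hF] at h5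
    calc ((univ.filter fun x : Fin n → F => x ∈ Bd F n d ∧ x + w ∈ Bd F n d).card : ℝ) ≤
        VV 1 n d (q ^ 2) * (2 * q / (1 + q ^ 2)) ^ hammingNorm w := h5
      _ ≤ V1 * v := by
        rw [← hV]
        exact mul_le_mul_of_nonneg_left ((pow_le_pow_of_le_one (by positivity) hθ1 h1).trans hsh)
          hV0.le
      _ = P * v * (Fintype.card F : ℝ) ^ n := by rw [← hPV]; ring
  · intro c hc
    refine (hbh c hc).trans (mul_le_mul_of_nonneg_left ?_ hP0.le)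
    have : 0 ≤ P1 * P := by positivity
    linarith

lemma ff_eta2 (hF : q1 F = 1) {l : ℕ} {q y Z V1 : ℝ} (hq : 0 < q) (hq1 : q ≤ 1) (hy : 0 < y)
    (hy1 : y ≤ 1)
    (hV : V1 = VV 1 n d (q ^ 2)) (hZ : 2 * VV 1 n j₀ y * (Fintype.card F : ℝ) ^ l ≤ Z)
    (x : Fin n → F) (hx : x ∉ Bd F n d) :
    |ff (Bd F n d) (Lo2 F n j₀) x| ≤ V1 / (Fintype.card F : ℝ) ^ n * Z / (Fintype.card F : ℝ) ^ l := by
  have hN := card_F_pos (F := F)
  have hr : 0 < q ^ 2 := by positivity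
  have hr1 : q ^ 2 ≤ 1 := pow_le_one₀ hq.le hq1
  have hV1 : 1 ≤ V1 := hV ▸ one_le_VV one_pos hr hr1 d
  have hB : ((Lo2 F n j₀).card : ℝ) ≤ 2 * VV 1 n j₀ y := card_Lo2_le hF hy hy1 j₀
  have hP : av (ind (Bd F n d)) ≤ V1 / (Fintype.card F : ℝ) ^ n := by
    rw [hV, ← hF]
    exact av_ind_Bd d hr hr1
  refine (ff_out hP hx).trans ?_
  rw [le_div_iff₀ (by positivity)]
  calc (Lo2 F n j₀).card * (V1 / (Fintype.card F : ℝ) ^ n) * (Fintype.card F : ℝ) ^ l ≤
      2 * VV 1 n j₀ y * (V1 / (Fintype.card F : ℝ) ^ n) * (Fintype.card F : ℝ) ^ l := by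
        refine mul_le_mul_of_nonneg_right ?_ (by positivity)
        exact mul_le_mul_of_nonneg_right hB (by positivity)
    _ = V1 / (Fintype.card F : ℝ) ^ n * (2 * VV 1 n j₀ y * (Fintype.card F : ℝ) ^ l) := by ring
    _ ≤ V1 / (Fintype.card F : ℝ) ^ n * Z := mul_le_mul_of_nonneg_left hZ (by positivity)

end Pool.Agent.K9h1.LB
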